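import Pool.Agent.Lib.MP_3b6a8c_pr.Main

namespace Pool.Agent.Results.MP_3b6a8c_pr.Subdivision

open Pool.Agent.Lib.MP_3b6a8c_pr

theorem result (d : ℕ) (p : ℝ) (hp : 1 / ((d : ℝ) + 1) < p) (hp1 : p ≤ 1)
    (W : Type) [Fintype W] (H : SimpleGraph W) (hH : ∀ a, (H.neighborSet a).ncard ≤ 3)
    (δ : ℝ) (hδ : 0 < δ) :
    ∃ k₀ : ℕ, ∀ k ≥ k₀, ∀ (V : Type) [Fintype V] (G : SimpleGraph V), IsVertexExpander G k d →
      1 - δ ≤ percProb G p (ContainsSubdivision H) :=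
  main d p ((div_lt_iff₀ (by positivity)).1 hp) hp1 W H hH δ hδ

end Pool.Agent.Results.MP_3b6a8c_pr.Subdivision
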